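import Mathlib

/-!
# Deterministic partially blind and general counter machines with a constant number of reversals
-/

set_option autoImplicit false

namespace Pool.Agent.Results.MP_24384b_lc.BlindCounterReversals

/-- One-way multicounter machines over the alphabet `A`. In a state `q`, with scanned symbol `s`
(`none`: the head has left the word), where `z i` says whether the counter `i` is zero, the possible
moves are the members `(q', r, c)` of `δ q s z`: the new state `q'`, `r = true` if the head moves
one cell to the right, and `c i ∈ {-1, 0, 1}` is added to the counter `i`. -/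
structure Machine (A : Type) where
  /-- the states -/
  Q : Type
  /-- there are finitely many states -/
  finQ : Finite Q
  /-- the number of counters -/
  k : ℕ
  /-- the initial state -/
  start : Q
  /-- the final states -/
  final : Set Q
  /-- the possible moves -/
  δ : Q → Option A → (Fin k → Bool) → Set (Q × Bool × (Fin k → SignType))

variable {A : Type}

/-- Configurations: the state, the part of the word not yet passed by the head, the counters. -/
structure Config (M : Machine A) where
  /-- the state -/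
  state : M.Q
  /-- the part of the word which the head has not passed -/
  rest : List A
  /-- the counters -/
  cnt : Fin M.k → ℕ

/-- One step of the machine, with the changes `c` of the counters. No counter becomes negative. -/
def Step (M : Machine A) (x : Config M) (c : Fin M.k → SignType) (y : Config M) : Prop :=
  ∃ r : Bool, (y.state, r, c) ∈ M.δ x.state x.rest.head? (fun i => decide (x.cnt i = 0)) ∧
    (r = false → y.rest = x.rest) ∧ (r = true → ∃ a, x.rest = a :: y.rest) ∧
    ∀ i, (y.cnt i : ℤ) = (x.cnt i : ℤ) + (c i : ℤ)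

/-- Computations from `x` to `y`, with the list of the changes of the counters in their steps. -/
inductive Run (M : Machine A) : Config M → List (Fin M.k → SignType) → Config M → Prop
  | nil (x : Config M) : Run M x [] x
  | cons {x y z : Config M} {c : Fin M.k → SignType} {l : List (Fin M.k → SignType)} :
      Step M x c y → Run M y l z → Run M x (c :: l) z

/-- The initial configuration. -/
def init (M : Machine A) (w : List A) : Config M := ⟨M.start, w, fun _ => 0⟩

/-- Deterministic: in every configuration at most one step is possible. -/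
def Deterministic (M : Machine A) : Prop :=
  ∀ (x y y' : Config M) (c c' : Fin M.k → SignType), Step M x c y → Step M x c' y' →
    c = c' ∧ y = y'

/-- Partially blind: the moves do not depend on whether counters are zero. -/
def PartiallyBlind (M : Machine A) : Prop :=
  ∀ (q : M.Q) (s : Option A) (z z' : Fin M.k → Bool), M.δ q s z = M.δ q s z'

/-- Quasi-realtime: for some `d` every part of a computation in which the head stays on the same
cell has at most `d` steps. -/
def QuasiRealtime (M : Machine A) : Prop :=
  ∃ d : ℕ, ∀ (w : List A) (x y : Config M) (l l' : List (Fin M.k → SignType)),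
    Run M (init M w) l x → Run M x l' y → y.rest = x.rest → l'.length ≤ d

/-- The number of changes between increasing and decreasing in a sequence of changes of one
counter. -/
def alternations : List SignType → ℕ
  | [] => 0
  | [_] => 0
  | a :: b :: l => (if a = b then 0 else 1) + alternations (b :: l)

/-- The number of reversals of a computation: the sum over the counters of the number of changes
between increasing and decreasing (steps which do not change the counter are disregarded). -/
def reversals {k : ℕ} (l : List (Fin k → SignType)) : ℕ :=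
  ∑ i, alternations ((l.map fun c => c i).filter fun s => s ≠ 0)

/-- `L_{Rc}(M)`: the words with an accepting computation with at most `c` reversals. -/
def LR (c : ℕ) (M : Machine A) : Set (List A) :=
  {w | ∃ (l : List (Fin M.k → SignType)) (q : M.Q), q ∈ M.final ∧
    Run M (init M w) l ⟨q, [], fun _ => 0⟩ ∧ reversals l ≤ c}

/-- The machine makes no move after the head has left the word. -/
def NoEndMoves (M : Machine A) : Prop := ∀ (q : M.Q) (z : Fin M.k → Bool), M.δ q none z = ∅

/-- The class `L_{Rc}(QR-DCOUNTER)` over the alphabet `A`; if `e` is `false`, only machines without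
moves after the end of the word are admitted. -/
def DCounter (e : Bool) (A : Type) (c : ℕ) : Set (Set (List A)) :=
  {L | ∃ M : Machine A, Deterministic M ∧ QuasiRealtime M ∧ (e = false → NoEndMoves M) ∧
    LR c M = L}

/-- The class `L_{Rc}(QR-DPBLIND)` over the alphabet `A`; if `e` is `false`, only machines without
moves after the end of the word are admitted. -/
def DPBlind (e : Bool) (A : Type) (c : ℕ) : Set (Set (List A)) :=
  {L | ∃ M : Machine A, PartiallyBlind M ∧ Deterministic M ∧ QuasiRealtime M ∧
    (e = false → NoEndMoves M) ∧ LR c M = L}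

/-- The words `a^n b^m` with `m > n`, where `a = true` and `b = false`. -/
def L₁ : Set (List Bool) :=
  {w | ∃ n m : ℕ, n < m ∧ w = List.replicate n true ++ List.replicate m false}

/-! ### Runs -/

theorem Run.append {M : Machine A} {x y z : Config M} {l l' : List (Fin M.k → SignType)}
    (h : Run M x l y) (h' : Run M y l' z) : Run M x (l ++ l') z := by
  induction h with
  | nil => exact h'
  | cons hs _ ih => exact Run.cons hs (ih h')

/-- Reading the word `x` exactly, whatever follows. -/
inductive Con (M : Machine A) : M.Q → (Fin M.k → ℕ) → List A → List (Fin M.k → SignType) →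
    M.Q → (Fin M.k → ℕ) → Prop
  | nil (q : M.Q) (v : Fin M.k → ℕ) : Con M q v [] [] q v
  | stay {q q1 q' : M.Q} {v v1 v' : Fin M.k → ℕ} {a : A} {x : List A} {c : Fin M.k → SignType}
      {l : List (Fin M.k → SignType)} :
      (q1, false, c) ∈ M.δ q (some a) (fun i => decide (v i = 0)) →
      (∀ i, (v1 i : ℤ) = (v i : ℤ) + (c i : ℤ)) → Con M q1 v1 (a :: x) l q' v' →
      Con M q v (a :: x) (c :: l) q' v'
  | move {q q1 q' : M.Q} {v v1 v' : Fin M.k → ℕ} {a : A} {x : List A} {c : Fin M.k → SignType}
      {l : List (Fin M.k → SignType)} :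
      (q1, true, c) ∈ M.δ q (some a) (fun i => decide (v i = 0)) →
      (∀ i, (v1 i : ℤ) = (v i : ℤ) + (c i : ℤ)) → Con M q1 v1 x l q' v' →
      Con M q v (a :: x) (c :: l) q' v'

variable {M : Machine A}

theorem Con.run {q q' : M.Q} {v v' : Fin M.k → ℕ} {x : List A} {l : List (Fin M.k → SignType)}
    (h : Con M q v x l q' v') (y : List A) : Run M ⟨q, x ++ y, v⟩ l ⟨q', y, v'⟩ := by
  induction h with
  | nil => exact Run.nil _
  | @stay q q1 q' v v1 v' a x c l h1 h2 _ ih =>
    exact Run.cons (y := ⟨q1, a :: x ++ y, v1⟩) ⟨false, h1, fun _ => rfl, by simp, h2⟩ ih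
  | @move q q1 q' v v1 v' a x c l h1 h2 _ ih =>
    exact Run.cons (y := ⟨q1, x ++ y, v1⟩) ⟨true, h1, by simp, fun _ => ⟨a, rfl⟩, h2⟩ ih

theorem Con.append {q q1 q2 : M.Q} {v v1 v2 : Fin M.k → ℕ} {x y : List A}
    {l l' : List (Fin M.k → SignType)} (h : Con M q v x l q1 v1) (h' : Con M q1 v1 y l' q2 v2) :
    Con M q v (x ++ y) (l ++ l') q2 v2 := by
  induction h with
  | nil => exact h'
  | stay h1 h2 _ ih => exact Con.stay h1 h2 (ih h')
  | move h1 h2 _ ih => exact Con.move h1 h2 (ih h')

theorem Con.split {q q2 : M.Q} {v v2 : Fin M.k → ℕ} {w : List A}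
    {l : List (Fin M.k → SignType)} (h : Con M q v w l q2 v2) : ∀ (x y : List A), w = x ++ y →
    ∃ l1 l2 q1 v1, l = l1 ++ l2 ∧ Con M q v x l1 q1 v1 ∧ Con M q1 v1 y l2 q2 v2 := by
  induction h with
  | nil q v =>
    intro x y hxy
    obtain ⟨rfl, rfl⟩ := List.append_eq_nil_iff.1 hxy.symm
    exact ⟨[], [], q, v, rfl, Con.nil q v, Con.nil q v⟩
  | @stay q q1 q' v v1 v' a w c l h1 h2 h3 ih =>
    intro x y hxy
    cases x with
    | nil =>
      simp only [List.nil_append] at hxy
      subst hxy
      exact ⟨[], c :: l, q, v, rfl, Con.nil q v, Con.stay h1 h2 h3⟩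
    | cons b x =>
      simp only [List.cons_append, List.cons.injEq] at hxy
      obtain ⟨rfl, rfl⟩ := hxy
      obtain ⟨l1, l2, q3, v3, rfl, h4, h5⟩ := ih (a :: x) y rfl
      exact ⟨c :: l1, l2, q3, v3, rfl, Con.stay h1 h2 h4, h5⟩
  | @move q q1 q' v v1 v' a w c l h1 h2 h3 ih =>
    intro x y hxy
    cases x with
    | nil =>
      simp only [List.nil_append] at hxy
      subst hxy
      exact ⟨[], c :: l, q, v, rfl, Con.nil q v, Con.move h1 h2 h3⟩
    | cons b x =>
      simp only [List.cons_append, List.cons.injEq] at hxy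
      obtain ⟨rfl, rfl⟩ := hxy
      obtain ⟨l1, l2, q3, v3, rfl, h4, h5⟩ := ih x y rfl
      exact ⟨c :: l1, l2, q3, v3, rfl, Con.move h1 h2 h4, h5⟩

theorem Run.split {X Y : Config M} {l : List (Fin M.k → SignType)} (h : Run M X l Y) :
    Y.rest = [] → ∀ x y : List A, X.rest = x ++ y →
      ∃ l1 l2 q1 v1, l = l1 ++ l2 ∧ Con M X.state X.cnt x l1 q1 v1 ∧ Run M ⟨q1, y, v1⟩ l2 Y := by
  induction h with
  | nil X =>
    intro hY x y hxy
    rw [hY] at hxy
    obtain ⟨rfl, rfl⟩ := List.append_eq_nil_iff.1 hxy.symm
    refine ⟨[], [], X.state, X.cnt, rfl, Con.nil _ _, ?_⟩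
    rw [← hY]
    exact Run.nil _
  | @cons X X1 Y c l hs hr ih =>
    intro hY x y hxy
    cases x with
    | nil =>
      refine ⟨[], c :: l, X.state, X.cnt, rfl, Con.nil _ _, ?_⟩
      have : (⟨X.state, y, X.cnt⟩ : Config M) = X := by
        cases X
        simp only [List.nil_append] at hxy
        simp [hxy]
      rw [this]
      exact Run.cons hs hr
    | cons a x =>
      obtain ⟨r, h1, h2, h3, h4⟩ := hs
      rw [hxy] at h1
      cases r with
      | false =>
        obtain ⟨l1, l2, q1, v1, rfl, h5, h6⟩ := ih hY (a :: x) y (by rw [h2 rfl, hxy])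
        exact ⟨c :: l1, l2, q1, v1, rfl, Con.stay h1 h4 h5, h6⟩
      | true =>
        obtain ⟨b, hb⟩ := h3 rfl
        rw [hxy] at hb
        simp only [List.cons_append, List.cons.injEq] at hb
        obtain ⟨l1, l2, q1, v1, rfl, h5, h6⟩ := ih hY x y hb.2.symm
        exact ⟨c :: l1, l2, q1, v1, rfl, Con.move h1 h4 h5, h6⟩

/-! ### Deterministic partially blind machines -/

theorem move_unique (hB : PartiallyBlind M) (hD : Deterministic M) {q q1 q2 : M.Q} {a : A}
    {z z' : Fin M.k → Bool} {r r' : Bool} {c c' : Fin M.k → SignType}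
    (h1 : (q1, r, c) ∈ M.δ q (some a) z) (h2 : (q2, r', c') ∈ M.δ q (some a) z') :
    q1 = q2 ∧ r = r' ∧ c = c' := by
  have key : ∀ (q1 : M.Q) (r : Bool) (c : Fin M.k → SignType) (z : Fin M.k → Bool),
      (q1, r, c) ∈ M.δ q (some a) z → Step M ⟨q, [a], fun _ => 1⟩ c
        ⟨q1, if r = true then [] else [a], fun i => ((1 : ℤ) + (c i : ℤ)).toNat⟩ := by
    intro q1 r c z h
    refine ⟨r, ?_, ?_, ?_, ?_⟩
    · rw [hB q (some a) z (fun i => decide ((fun _ => 1 : Fin M.k → ℕ) i = 0))] at h
      exact h
    · intro hr; simp [hr]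
    · intro hr; simp [hr]
    · intro i
      have : (-1 : ℤ) ≤ (c i : ℤ) := by
        rcases c i with _ | _ | _ <;> simp
      simp only [Nat.cast_one]
      rw [Int.toNat_of_nonneg (by omega)]
  obtain ⟨h3, h4⟩ := hD _ _ _ _ _ (key q1 r c z h1) (key q2 r' c' z' h2)
  refine ⟨congrArg Config.state h4, ?_, h3⟩
  have h5 := congrArg Config.rest h4
  cases r <;> cases r' <;> simp at h5 ⊢

theorem Con.shift (hB : PartiallyBlind M) (hD : Deterministic M) {q q1 : M.Q}
    {v v1 : Fin M.k → ℕ} {x : List A} {l : List (Fin M.k → SignType)}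
    (h : Con M q v x l q1 v1) : ∀ {q2 : M.Q} {u u1 : Fin M.k → ℕ}
    {l' : List (Fin M.k → SignType)}, Con M q u x l' q2 u1 →
      l = l' ∧ q1 = q2 ∧ ∀ i, (v1 i : ℤ) - (v i : ℤ) = (u1 i : ℤ) - (u i : ℤ) := by
  induction h with
  | nil q v =>
    intro q2 u u1 l' h'
    cases h' with
    | nil => exact ⟨rfl, rfl, fun i => by omega⟩
  | @stay q q1 q' v v1 v' a w c l h1 h2 h3 ih =>
    intro q2 u u1 l' h'
    cases h' with
    | stay h4 h5 h6 =>
      obtain ⟨rfl, -, rfl⟩ := move_unique hB hD h1 h4
      obtain ⟨rfl, rfl, h7⟩ := ih h6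
      refine ⟨rfl, rfl, fun i => ?_⟩
      have := h2 i
      have := h5 i
      have := h7 i
      omega
    | move h4 h5 h6 =>
      have := (move_unique hB hD h1 h4).2.1
      simp at this
  | @move q q1 q' v v1 v' a w c l h1 h2 h3 ih =>
    intro q2 u u1 l' h'
    cases h' with
    | stay h4 h5 h6 =>
      have := (move_unique hB hD h1 h4).2.1
      simp at this
    | move h4 h5 h6 =>
      obtain ⟨rfl, -, rfl⟩ := move_unique hB hD h1 h4
      obtain ⟨rfl, rfl, h7⟩ := ih h6
      refine ⟨rfl, rfl, fun i => ?_⟩
      have := h2 i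
      have := h5 i
      have := h7 i
      omega

theorem Con.unique (hB : PartiallyBlind M) (hD : Deterministic M) {q q1 q2 : M.Q}
    {v v1 v2 : Fin M.k → ℕ} {x : List A} {l l' : List (Fin M.k → SignType)}
    (h : Con M q v x l q1 v1) (h' : Con M q v x l' q2 v2) : l = l' ∧ q1 = q2 ∧ v1 = v2 := by
  obtain ⟨h1, h2, h3⟩ := h.shift hB hD h'
  refine ⟨h1, h2, funext fun i => ?_⟩
  have := h3 i
  omega

theorem Run.cnt_le {X Y : Config M} {l : List (Fin M.k → SignType)} (h : Run M X l Y)
    (i : Fin M.k) : X.cnt i ≤ Y.cnt i + l.length := by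
  induction h with
  | nil X => simp
  | @cons X X1 Y c l hs hr ih =>
    obtain ⟨r, -, -, -, h4⟩ := hs
    have h5 := h4 i
    have : (-1 : ℤ) ≤ (c i : ℤ) := by
      rcases c i with _ | _ | _ <;> simp
    rw [List.length_cons]
    omega

/-! ### Reversals of subsequences -/

theorem alternations_cons_le (a b : SignType) (l : List SignType) :
    alternations (a :: l) ≤ (if a = b then 0 else 1) + alternations (b :: l) := by
  cases l with
  | nil => simp [alternations]
  | cons c l =>
    simp only [alternations]
    by_cases h1 : a = b <;> by_cases h2 : b = c <;> by_cases h3 : a = c <;> simp_all <;> omega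

theorem alternations_sublist_aux {l l' : List SignType} (h : l.Sublist l') :
    ∀ a, alternations (a :: l) ≤ alternations (a :: l') := by
  induction h with
  | slnil => intro a; exact le_rfl
  | @cons l₁ l₂ b _ ih =>
    intro a
    exact (ih a).trans ((alternations_cons_le a b l₂).trans (by simp [alternations]))
  | @cons_cons l₁ l₂ b _ ih =>
    intro a
    simp only [alternations]
    have := ih b
    omega

theorem alternations_tail_le (a : SignType) (l : List SignType) :
    alternations l ≤ alternations (a :: l) := by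
  cases l with
  | nil => simp [alternations]
  | cons b l => simp [alternations]

theorem alternations_sublist {l l' : List SignType} (h : l.Sublist l') :
    alternations l ≤ alternations l' := by
  induction h with
  | slnil => exact le_rfl
  | cons b _ ih => exact ih.trans (alternations_tail_le _ _)
  | cons_cons b h' _ => exact alternations_sublist_aux h' b

theorem reversals_sublist {k : ℕ} {l l' : List (Fin k → SignType)} (h : l.Sublist l') :
    reversals l ≤ reversals l' :=
  Finset.sum_le_sum fun i _ => alternations_sublist ((h.map _).filter _)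

/-! ### The lower bound -/

theorem not_mem_L₁ {N i : ℕ} (h : i < N) :
    List.replicate N true ++ List.replicate i false ∉ L₁ := by
  rintro ⟨n, m, hnm, he⟩
  have h1 := congrArg (List.count true) he
  have h2 := congrArg (List.count false) he
  simp [List.count_append, List.count_replicate] at h1 h2
  omega

theorem lower {M : Machine Bool} (hB : PartiallyBlind M) (hD : Deterministic M)
    (hQ : QuasiRealtime M) (c : ℕ) : LR c M ≠ L₁ := by
  intro hL
  obtain ⟨d, hd⟩ := hQ
  have := M.finQ
  set N := Nat.card M.Q with hN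
  have hacc : ∀ m, N < m → ∃ (l : List (Fin M.k → SignType)) (q : M.Q), q ∈ M.final ∧
      Run M (init M (List.replicate N true ++ List.replicate m false)) l ⟨q, [], fun _ => 0⟩ ∧
      reversals l ≤ c := by
    intro m hm
    have : List.replicate N true ++ List.replicate m false ∈ LR c M := by
      rw [hL]; exact ⟨N, m, hm, rfl⟩
    exact this
  have hsplit : ∀ j m (l : List (Fin M.k → SignType)) (q : M.Q), j ≤ m →
      Run M (init M (List.replicate N true ++ List.replicate m false)) l ⟨q, [], fun _ => 0⟩ →
      ∃ l1 l2 s C, l = l1 ++ l2 ∧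
        Con M M.start (fun _ => 0) (List.replicate N true ++ List.replicate j false) l1 s C ∧
        Run M ⟨s, List.replicate (m - j) false, C⟩ l2 ⟨q, [], fun _ => 0⟩ := by
    intro j m l q hjm hr
    refine hr.split rfl _ _ ?_
    show List.replicate N true ++ List.replicate m false = _
    rw [List.append_assoc, List.replicate_append_replicate, Nat.add_sub_cancel' hjm]
  have hcon : ∀ j, ∃ (l : List (Fin M.k → SignType)) (s : M.Q) (C : Fin M.k → ℕ),
      Con M M.start (fun _ => 0) (List.replicate N true ++ List.replicate j false) l s C := by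
    intro j
    obtain ⟨l, q, -, hr, -⟩ := hacc (N + j + 1) (by omega)
    obtain ⟨l1, l2, s, C, -, h, -⟩ := hsplit j (N + j + 1) l q (by omega) hr
    exact ⟨l1, s, C, h⟩
  choose L s C hC using hcon
  -- the end of the accepting runs
  have hend : ∀ j, N < j → ∃ (l : List (Fin M.k → SignType)) (q : M.Q), q ∈ M.final ∧
      Run M ⟨s j, [], C j⟩ l ⟨q, [], fun _ => 0⟩ ∧ reversals (L j ++ l) ≤ c := by
    intro j hj
    obtain ⟨l, q, hq, hr, hc⟩ := hacc j hj
    obtain ⟨l1, l2, s', C', rfl, h, h'⟩ := hsplit j j l q le_rfl hr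
    obtain ⟨rfl, rfl, rfl⟩ := (hC j).unique hB hD h
    rw [Nat.sub_self, List.replicate_zero] at h'
    exact ⟨l2, q, hq, h', hc⟩
  have hbound : ∀ j, N < j → ∀ i, C j i ≤ d := by
    intro j hj i
    obtain ⟨l, q, -, hr, -⟩ := hend j hj
    have h1 := (hC j).run []
    rw [List.append_nil] at h1
    have h2 := hd _ _ _ _ _ h1 hr rfl
    have h3 := hr.cnt_le i
    simp only at h3
    omega
  -- pigeonhole
  obtain ⟨i, j, hij, hjN, hs⟩ : ∃ i j, i < j ∧ j ≤ N ∧ s i = s j := by
    have := Fintype.ofFinite M.Q
    obtain ⟨x, y, hxy, h⟩ := Fintype.exists_ne_map_eq_of_card_lt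
      (fun x : Fin (N + 1) => s x) (by rw [Fintype.card_fin, hN, Nat.card_eq_fintype_card]; omega)
    have hx := x.2
    have hy := y.2
    rcases lt_or_gt_of_ne (fun h => hxy (Fin.ext h) : (x : ℕ) ≠ y) with h' | h'
    · exact ⟨x, y, h', by omega, h⟩
    · exact ⟨y, x, h', by omega, h.symm⟩
  have hstep : ∀ a b, a ≤ b → ∃ μ, L b = L a ++ μ ∧
      Con M (s a) (C a) (List.replicate (b - a) false) μ (s b) (C b) := by
    intro a b hab
    obtain ⟨l1, l2, q1, v1, h1, h2, h3⟩ := (hC b).split
      (List.replicate N true ++ List.replicate a false) (List.replicate (b - a) false)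
      (by rw [List.append_assoc, List.replicate_append_replicate, Nat.add_sub_cancel' hab])
    obtain ⟨rfl, rfl, rfl⟩ := (hC a).unique hB hD h2
    exact ⟨l2, h1, h3⟩
  obtain ⟨μ, -, hμ⟩ := hstep i j hij.le
  have hper : ∀ r : ℕ, s (i + r * (j - i)) = s i ∧
      ∀ t, (C (i + r * (j - i)) t : ℤ) = C i t + r * ((C j t : ℤ) - C i t) := by
    intro r
    induction r with
    | zero => simp
    | succ r ih =>
      obtain ⟨ih1, ih2⟩ := ih
      obtain ⟨μ', -, h⟩ := hstep (i + r * (j - i)) (i + (r + 1) * (j - i)) (by nlinarith)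
      have e : i + (r + 1) * (j - i) - (i + r * (j - i)) = j - i := by
        rw [add_mul, one_mul]; omega
      rw [e, ih1] at h
      obtain ⟨-, h1, h2⟩ := hμ.shift hB hD h
      refine ⟨by rw [← h1, hs], fun t => ?_⟩
      have h3 := h2 t
      rw [ih2 t] at h3
      push_cast
      linarith
  have hw : ∀ t, (C j t : ℤ) - C i t = 0 := by
    intro t
    by_contra hne
    have hP : 1 ≤ j - i := by omega
    have key : ∀ r : ℕ, N < r → 0 ≤ (C i t : ℤ) + r * ((C j t : ℤ) - C i t) ∧
        (C i t : ℤ) + r * ((C j t : ℤ) - C i t) ≤ d := by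
      intro r hr
      rw [← (hper r).2 t]
      refine ⟨by positivity, ?_⟩
      exact_mod_cast hbound _ (by nlinarith) t
    obtain ⟨h1, h2⟩ := key (N + 1 + d + C i t) (by omega)
    push_cast at h1 h2
    rcases lt_or_gt_of_ne hne with h3 | h3
    · nlinarith
    · nlinarith
  -- the contradiction
  have hP : 1 ≤ j - i := by omega
  obtain ⟨l, q, hq, hr, hc⟩ := hend (i + (N + 1) * (j - i)) (by nlinarith)
  have hs' := (hper (N + 1)).1
  have hC' : C (i + (N + 1) * (j - i)) = C i := by
    funext t
    have := (hper (N + 1)).2 t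
    rw [hw t, mul_zero, add_zero] at this
    exact_mod_cast this
  rw [hs', hC'] at hr
  obtain ⟨ν, hν, -⟩ := hstep i (i + (N + 1) * (j - i)) (by omega)
  refine not_mem_L₁ (N := N) (i := i) (by omega) ?_
  rw [← hL]
  refine ⟨L i ++ l, q, hq, ?_, ?_⟩
  · have h1 := (hC i).run []
    rw [List.append_nil] at h1
    exact h1.append hr
  · refine le_trans (reversals_sublist ?_) hc
    rw [hν, List.append_assoc]
    exact (List.Sublist.refl _).append (List.sublist_append_right _ _)

/-! ### The upper bound -/

/-- The states of the machine for `L₁`. -/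
inductive St : Type
  /-- reading the letters `a` -/
  | A
  /-- reading letters `b` and decreasing the counter -/
  | B
  /-- the accepting state -/
  | F

instance : Finite St := by
  refine Finite.of_injective (β := Fin 3) (fun s => match s with | .A => 0 | .B => 1 | .F => 2) ?_
  intro x y h
  cases x <;> cases y <;> simp_all

/-- The moves of the machine for `L₁`. -/
def δ₁ : St → Option Bool → (Fin 1 → Bool) → Set (St × Bool × (Fin 1 → SignType))
  | .A, some true, _ => {(.A, true, fun _ => 1)}
  | .A, some false, z => {if z 0 = true then (.F, true, fun _ => 0) else (.B, true, fun _ => -1)}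
  | .B, some false, z => {if z 0 = true then (.F, true, fun _ => 0) else (.B, true, fun _ => -1)}
  | .F, some false, _ => {(.F, true, fun _ => 0)}
  | _, _, _ => ∅

/-- The machine for `L₁`. -/
abbrev M₁ : Machine Bool where
  Q := St
  finQ := inferInstance
  k := 1
  start := .A
  final := {.F}
  δ := δ₁

theorem M₁_sub (q : St) (s : Option Bool) (z : Fin 1 → Bool) : (δ₁ q s z).Subsingleton := by
  rcases q with _ | _ | _ <;> rcases s with _ | _ | _ <;> simp [δ₁]

theorem M₁_move (q : St) (s : Option Bool) (z : Fin 1 → Bool) :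
    ∀ m ∈ δ₁ q s z, m.2.1 = true := by
  rcases q with _ | _ | _ <;> rcases s with _ | _ | _ <;> simp [δ₁] <;> split_ifs <;> simp

theorem det_of_subsingleton {M : Machine A}
    (h : ∀ q s z, (M.δ q s z).Subsingleton) : Deterministic M := by
  rintro x y y' c c' ⟨r, h1, h2, h3, h4⟩ ⟨r', h5, h6, h7, h8⟩
  have h9 := h _ _ _ h1 h5
  simp only [Prod.mk.injEq] at h9
  obtain ⟨h10, rfl, rfl⟩ := h9
  refine ⟨rfl, ?_⟩
  obtain ⟨yq, yr, yc⟩ := y
  obtain ⟨yq', yr', yc'⟩ := y'
  simp only at h10 h2 h3 h4 h6 h7 h8
  subst h10
  have e1 : yr = yr' := by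
    cases r with
    | false => rw [h2 rfl, h6 rfl]
    | true =>
      obtain ⟨a, ha⟩ := h3 rfl
      obtain ⟨b, hb⟩ := h7 rfl
      rw [ha] at hb
      exact (List.cons.inj hb).2
  have e2 : yc = yc' := by
    funext i
    have := h4 i
    have := h8 i
    omega
  rw [e1, e2]

theorem quasi_of_move {M : Machine A} (h : ∀ q s z, ∀ m ∈ M.δ q s z, m.2.1 = true) :
    QuasiRealtime M := by
  refine ⟨0, fun w x y l l' _ h2 h3 => ?_⟩
  have key : ∀ {x y : Config M} {l : List (Fin M.k → SignType)}, Run M x l y →
      x.rest.length = y.rest.length + l.length := by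
    intro x y l hr
    induction hr with
    | nil => simp
    | cons hs _ ih =>
      obtain ⟨r, h1, -, h4, -⟩ := hs
      have h5 : r = true := h _ _ _ _ h1
      obtain ⟨a, ha⟩ := h4 h5
      rw [ha, List.length_cons, List.length_cons, ih]
      omega
  have := key h2
  rw [h3] at this
  omega

theorem M₁_det : Deterministic M₁ := det_of_subsingleton M₁_sub

theorem M₁_quasi : QuasiRealtime M₁ := quasi_of_move M₁_move

theorem M₁_noEnd : NoEndMoves M₁ := by
  intro q z
  show δ₁ q none z = ∅
  rcases q with _ | _ | _ <;> rfl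

/-- What an accepting computation can read from a given configuration. -/
def Good (x : Config M₁) : Prop :=
  match x.state with
  | .A => ∃ n m, n + x.cnt 0 < m ∧ x.rest = List.replicate n true ++ List.replicate m false
  | .B => ∃ m, x.cnt 0 < m ∧ x.rest = List.replicate m false
  | .F => x.cnt 0 = 0 ∧ ∃ m, x.rest = List.replicate m false

theorem good_of_run {x y : Config M₁} {l : List (Fin 1 → SignType)} (h : Run M₁ x l y) :
    Good y → Good x := by
  induction h with
  | nil => exact id
  | @cons x y z c l hs _ ih =>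
    intro hz
    have hy := ih hz
    clear ih hz
    obtain ⟨r, h1, -, h3, h4⟩ := hs
    have hr : r = true := M₁_move _ _ _ _ h1
    obtain ⟨a, ha⟩ := h3 hr
    obtain ⟨xq, xr, xc⟩ := x
    obtain ⟨yq, yr, yc⟩ := y
    simp only at ha h1 h4
    subst ha
    have h5 := h4 0
    change (yq, r, c) ∈ δ₁ xq (some a) _ at h1
    rcases xq with _ | _ | _ <;> cases a
    · by_cases h0 : xc 0 = 0
      · simp only [δ₁, h0, decide_true, if_true, Set.mem_singleton_iff, Prod.mk.injEq] at h1
        obtain ⟨rfl, rfl, rfl⟩ := h1
        obtain ⟨h6, m, h7⟩ := hy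
        refine ⟨0, m + 1, ?_, ?_⟩
        · show 0 + xc 0 < _
          omega
        · simp only at h7
          simp [h7, List.replicate_succ]
      · simp only [δ₁, h0, decide_false, Bool.false_eq_true, if_false, Set.mem_singleton_iff,
          Prod.mk.injEq] at h1
        obtain ⟨rfl, rfl, rfl⟩ := h1
        obtain ⟨m, h6, h7⟩ := hy
        simp only at h6 h7
        refine ⟨0, m + 1, ?_, ?_⟩
        · show 0 + xc 0 < _
          simp at h5
          omega
        · simp [h7, List.replicate_succ]
    · simp only [δ₁, Set.mem_singleton_iff, Prod.mk.injEq] at h1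
      obtain ⟨rfl, rfl, rfl⟩ := h1
      obtain ⟨n, m, h6, h7⟩ := hy
      simp only at h6 h7
      refine ⟨n + 1, m, ?_, ?_⟩
      · show n + 1 + xc 0 < _
        simp at h5
        omega
      · simp [h7, List.replicate_succ]
    · by_cases h0 : xc 0 = 0
      · simp only [δ₁, h0, decide_true, if_true, Set.mem_singleton_iff, Prod.mk.injEq] at h1
        obtain ⟨rfl, rfl, rfl⟩ := h1
        obtain ⟨h6, m, h7⟩ := hy
        refine ⟨m + 1, ?_, ?_⟩
        · show xc 0 < _
          omega
        · simp only at h7
          simp [h7, List.replicate_succ]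
      · simp only [δ₁, h0, decide_false, Bool.false_eq_true, if_false, Set.mem_singleton_iff,
          Prod.mk.injEq] at h1
        obtain ⟨rfl, rfl, rfl⟩ := h1
        obtain ⟨m, h6, h7⟩ := hy
        simp only at h6 h7
        refine ⟨m + 1, ?_, ?_⟩
        · show xc 0 < _
          simp at h5
          omega
        · simp [h7, List.replicate_succ]
    · simp [δ₁] at h1
    · simp only [δ₁, Set.mem_singleton_iff, Prod.mk.injEq] at h1
      obtain ⟨rfl, rfl, rfl⟩ := h1
      obtain ⟨h6, m, h7⟩ := hy
      simp only at h6 h7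
      refine ⟨?_, m + 1, ?_⟩
      · show xc 0 = 0
        simp at h5
        omega
      · simp [h7, List.replicate_succ]
    · simp [δ₁] at h1

theorem run_A (n k : ℕ) (w : List Bool) :
    Run M₁ ⟨St.A, List.replicate n true ++ w, fun _ => k⟩ (List.replicate n fun _ => 1)
      ⟨St.A, w, fun _ => n + k⟩ := by
  induction n generalizing k with
  | zero => simpa using Run.nil _
  | succ n ih =>
    refine Run.cons (y := ⟨St.A, List.replicate n true ++ w, fun _ => k + 1⟩)
      ⟨true, ?_, by simp, fun _ => ⟨true, rfl⟩, fun i => by simp⟩ ?_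
    · simp [δ₁, List.replicate_succ]
    · have := ih (k + 1)
      rwa [show n + (k + 1) = n + 1 + k by ring] at this

theorem run_B (n : ℕ) (w : List Bool) :
    Run M₁ ⟨St.B, List.replicate n false ++ w, fun _ => n⟩ (List.replicate n fun _ => -1)
      ⟨St.B, w, fun _ => 0⟩ := by
  induction n with
  | zero => simpa using Run.nil _
  | succ n ih =>
    refine Run.cons (y := ⟨St.B, List.replicate n false ++ w, fun _ => n⟩)
      ⟨true, ?_, by simp, fun _ => ⟨false, rfl⟩, fun i => by simp⟩ ih
    simp [δ₁, List.replicate_succ]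

theorem run_F (n : ℕ) :
    Run M₁ ⟨St.F, List.replicate n false, fun _ => 0⟩ (List.replicate n fun _ => 0)
      ⟨St.F, [], fun _ => 0⟩ := by
  induction n with
  | zero => simpa using Run.nil _
  | succ n ih =>
    refine Run.cons (y := ⟨St.F, List.replicate n false, fun _ => 0⟩)
      ⟨true, ?_, by simp, fun _ => ⟨false, rfl⟩, fun i => by simp⟩ ih
    simp [δ₁, List.replicate_succ]

theorem run_AB (n : ℕ) (w : List Bool) :
    ∃ q, (q = St.A ∨ q = St.B) ∧
      Run M₁ ⟨St.A, List.replicate n false ++ w, fun _ => n⟩ (List.replicate n fun _ => -1)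
        ⟨q, w, fun _ => 0⟩ := by
  cases n with
  | zero => exact ⟨St.A, Or.inl rfl, by simpa using Run.nil _⟩
  | succ n =>
    refine ⟨St.B, Or.inr rfl, Run.cons (y := ⟨St.B, List.replicate n false ++ w, fun _ => n⟩)
      ⟨true, ?_, by simp, fun _ => ⟨false, rfl⟩, fun i => by simp⟩ (run_B n w)⟩
    simp [δ₁, List.replicate_succ]

theorem run_ABF {q : St} (hq : q = St.A ∨ q = St.B) (n : ℕ) :
    Run M₁ ⟨q, List.replicate (n + 1) false, fun _ => 0⟩ (List.replicate (n + 1) fun _ => 0)
      ⟨St.F, [], fun _ => 0⟩ := by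
  refine Run.cons (y := ⟨St.F, List.replicate n false, fun _ => 0⟩)
      ⟨true, ?_, by simp, fun _ => ⟨false, rfl⟩, fun i => by simp⟩ (run_F n)
  rcases hq with rfl | rfl
  · simp [δ₁, List.replicate_succ]
  · simp [δ₁, List.replicate_succ]

theorem alt_const (n : ℕ) (a : SignType) : alternations (List.replicate n a) = 0 := by
  induction n with
  | zero => rfl
  | succ n ih =>
    cases n with
    | zero => rfl
    | succ n => simpa [List.replicate_succ, alternations] using ih

theorem alt_two (n m : ℕ) (a b : SignType) :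
    alternations (List.replicate n a ++ List.replicate m b) ≤ 1 := by
  induction n with
  | zero => simp [alt_const]
  | succ n ih =>
    cases n with
    | zero =>
      cases m with
      | zero => simp [alternations]
      | succ m =>
        have := alt_const (m + 1) b
        rw [List.replicate_succ] at this
        rw [zero_add, List.replicate_one, List.replicate_succ, List.singleton_append, alternations,
          this]
        split_ifs <;> simp
    | succ n => simpa [List.replicate_succ, alternations] using ih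

theorem LR_M₁ {c : ℕ} (hc : 1 ≤ c) : LR c M₁ = L₁ := by
  ext w
  constructor
  · rintro ⟨l, q, hq, hr, -⟩
    change q = St.F at hq
    subst hq
    have := good_of_run hr ⟨rfl, 0, rfl⟩
    exact this
  · rintro ⟨n, m, hnm, rfl⟩
    obtain ⟨q, hq, h⟩ := run_AB n (List.replicate (m - n - 1 + 1) false)
    have h1 := (run_A n 0 (List.replicate n false ++ List.replicate (m - n - 1 + 1) false))
    have h2 := (h1.append h).append (run_ABF hq (m - n - 1))
    rw [List.replicate_append_replicate, show n + (m - n - 1 + 1) = m by omega] at h2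
    refine ⟨_, St.F, rfl, h2, ?_⟩
    refine le_trans ?_ hc
    show ∑ i : Fin 1, _ ≤ _
    rw [Finset.univ_unique, Finset.sum_singleton]
    simp only [List.map_append, List.map_replicate, List.filter_append]
    simpa using alt_two n n 1 (-1)

/-! ### No reversals -/

/-- The partially blind machine which performs the moves of `M` at counters equal to zero which do
not change counters. -/
@[reducible] def zeroM (M : Machine A) : Machine A where
  Q := M.Q
  finQ := M.finQ
  k := M.k
  start := M.start
  final := M.final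
  δ q s _ := {m | m ∈ M.δ q s (fun _ => true) ∧ m.2.2 = fun _ => 0}

theorem zeroM_blind (M : Machine A) : PartiallyBlind (zeroM M) := fun _ _ _ _ => rfl

theorem zeroM_noEnd {M : Machine A} (h : NoEndMoves M) : NoEndMoves (zeroM M) := by
  intro q z
  show {m | m ∈ M.δ q none (fun _ => true) ∧ m.2.2 = fun _ => 0} = ∅
  rw [h]
  simp

theorem zeroM_step {M : Machine A} {q q' : M.Q} {x y : List A} {v v' : Fin M.k → ℕ}
    {c : Fin M.k → SignType} (h : Step (zeroM M) ⟨q, x, v⟩ c ⟨q', y, v'⟩) :
    Step M ⟨q, x, fun _ => 0⟩ c ⟨q', y, fun _ => 0⟩ ∧ (c = fun _ => 0) ∧ v' = v := by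
  obtain ⟨r, ⟨h1, h1'⟩, h2, h3, h4⟩ := h
  simp only at h1' h4
  subst h1'
  refine ⟨⟨r, ?_, h2, h3, fun i => by simp⟩, rfl, funext fun i => ?_⟩
  · simpa using h1
  · have := h4 i
    simp at this
    exact this

theorem zeroM_det {M : Machine A} (hD : Deterministic M) : Deterministic (zeroM M) := by
  rintro ⟨xq, xr, xc⟩ ⟨yq, yr, yc⟩ ⟨yq', yr', yc'⟩ c c' h h'
  obtain ⟨h1, h2, h3⟩ := zeroM_step h
  obtain ⟨h4, h5, h6⟩ := zeroM_step h'
  obtain ⟨h7, h8⟩ := hD _ _ _ _ _ h1 h4
  simp only [Config.mk.injEq, and_true] at h8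
  obtain ⟨rfl, rfl⟩ := h8
  exact ⟨h7, by rw [h3, h6]⟩

theorem zeroM_run {M : Machine A} {X Y : Config (zeroM M)} {l : List (Fin M.k → SignType)}
    (h : Run (zeroM M) X l Y) :
    Run M ⟨X.state, X.rest, fun _ => 0⟩ l ⟨Y.state, Y.rest, fun _ => 0⟩ ∧ Y.cnt = X.cnt := by
  induction h with
  | nil X => exact ⟨Run.nil _, rfl⟩
  | @cons X Y Z c l hs _ ih =>
    obtain ⟨h1, -, h3⟩ := zeroM_step (M := M) (q := X.state) (q' := Y.state) (x := X.rest) (y := Y.rest)
      (v := X.cnt) (v' := Y.cnt) hs
    exact ⟨Run.cons h1 ih.1, ih.2.trans h3⟩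

theorem zeroM_quasi {M : Machine A} (h : QuasiRealtime M) : QuasiRealtime (zeroM M) := by
  obtain ⟨d, hd⟩ := h
  refine ⟨d, fun w x y l l' h1 h2 h3 => ?_⟩
  exact hd w ⟨x.state, x.rest, fun _ => 0⟩ ⟨y.state, y.rest, fun _ => 0⟩ l l'
    (zeroM_run h1).1 (zeroM_run h2).1 h3

theorem run_zeroM {M : Machine A} {X Y : Config M} {l : List (Fin M.k → SignType)}
    (h : Run M X l Y) : (∀ c ∈ l, c = fun _ => 0) → (X.cnt = fun _ => 0) →
    Run (zeroM M) ⟨X.state, X.rest, fun _ => 0⟩ l ⟨Y.state, Y.rest, fun _ => 0⟩ := by
  induction h with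
  | nil X => exact fun _ _ => Run.nil _
  | @cons X Y Z c l hs _ ih =>
    intro h1 h2
    obtain ⟨r, h3, h4, h5, h6⟩ := hs
    have hc : c = fun _ => 0 := h1 c (by simp)
    subst hc
    have h7 : Y.cnt = fun _ => 0 := by
      funext i
      have := h6 i
      rw [h2] at this
      simpa using this
    refine Run.cons (M := zeroM M) (x := ⟨X.state, X.rest, fun _ => 0⟩)
      (y := ⟨Y.state, Y.rest, fun _ => 0⟩) ⟨r, ⟨?_, rfl⟩, h4, h5, fun i => by simp⟩
      (ih (fun c hc => h1 c (by simp [hc])) h7)
    rw [h2] at h3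
    simpa using h3

theorem alt_zero {l : List SignType} (h : alternations l = 0) :
    ∀ a ∈ l, ∀ b ∈ l, a = b := by
  induction l with
  | nil => simp
  | cons x l ih =>
    cases l with
    | nil => simp
    | cons y l =>
      simp only [alternations] at h
      have h1 : x = y := by
        by_contra hne
        simp [hne] at h
      subst h1
      have h2 : alternations (x :: l) = 0 := by omega
      have ih := ih h2
      intro a ha b hb
      have ha' : a ∈ x :: l := by simpa using ha
      have hb' : b ∈ x :: l := by simpa using hb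
      exact ih a ha' b hb'

theorem run_sum {X Y : Config M} {l : List (Fin M.k → SignType)} (h : Run M X l Y)
    (i : Fin M.k) :
    (Y.cnt i : ℤ) = X.cnt i + ((l.map fun c => (c i : ℤ)).sum) := by
  induction h with
  | nil => simp
  | cons hs _ ih =>
    obtain ⟨r, -, -, -, h4⟩ := hs
    rw [ih, h4 i]
    simp only [List.map_cons, List.sum_cons]
    ring

theorem no_change {X Y : Config M} {l : List (Fin M.k → SignType)} (h : Run M X l Y)
    (hX : X.cnt = fun _ => 0) (hY : Y.cnt = fun _ => 0) (hl : reversals l ≤ 0) :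
    ∀ c ∈ l, c = fun _ => 0 := by
  intro c hc
  funext i
  by_contra hne
  have h1 : alternations ((l.map fun c => c i).filter fun s => s ≠ 0) = 0 := by
    have := Finset.sum_eq_zero_iff.1 (Nat.le_zero.1 hl) i (Finset.mem_univ i)
    exact this
  have h2 := alt_zero h1
  have h3 : ∀ s ∈ l.map (fun c => c i), s = 0 ∨ s = c i := by
    intro s hs
    by_cases h0 : s = 0
    · exact Or.inl h0
    · refine Or.inr (h2 s ?_ (c i) ?_)
      · simpa [h0] using hs
      · simp only [List.mem_filter, List.mem_map, decide_eq_true_eq]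
        exact ⟨⟨c, hc, rfl⟩, hne⟩
  have h4 := run_sum h i
  rw [hX, hY] at h4
  have h5 : ∀ (l : List SignType), (∀ s ∈ l, s = 0 ∨ s = c i) → c i ∈ l →
      (l.map fun s : SignType => (s : ℤ)).sum ≠ 0 := by
    intro l hl hm
    rcases hs : c i with _ | _ | _
    · exact absurd hs hne
    · have : ∀ l : List SignType, (∀ s ∈ l, s = 0 ∨ s = -1) →
          (l.map fun s : SignType => (s : ℤ)).sum ≤ 0 ∧ (-1 ∈ l → (l.map fun s : SignType => (s : ℤ)).sum < 0) := by
        intro l
        induction l with
        | nil => simp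
        | cons a l ih =>
          intro h
          obtain ⟨ih1, ih2⟩ := ih (fun s hs => h s (by simp [hs]))
          rcases h a (by simp) with rfl | rfl
          · simpa using ⟨ih1, ih2⟩
          · simp only [List.map_cons, List.sum_cons, SignType.coe_neg_one]
            exact ⟨by omega, fun _ => by omega⟩
      have := (this l (fun s h => by simpa [hs] using hl s h)).2 (by simpa [hs] using hm)
      omega
    · have : ∀ l : List SignType, (∀ s ∈ l, s = 0 ∨ s = 1) →
          0 ≤ (l.map fun s : SignType => (s : ℤ)).sum ∧ (1 ∈ l → 0 < (l.map fun s : SignType => (s : ℤ)).sum) := by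
        intro l
        induction l with
        | nil => simp
        | cons a l ih =>
          intro h
          obtain ⟨ih1, ih2⟩ := ih (fun s hs => h s (by simp [hs]))
          rcases h a (by simp) with rfl | rfl
          · simpa using ⟨ih1, ih2⟩
          · simp only [List.map_cons, List.sum_cons, SignType.coe_one]
            exact ⟨by omega, fun _ => by omega⟩
      have := (this l (fun s h => by simpa [hs] using hl s h)).2 (by simpa [hs] using hm)
      omega
  refine h5 (l.map fun c => c i) h3 (List.mem_map.2 ⟨c, hc, rfl⟩) ?_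
  rw [List.map_map]
  have h6 : (l.map fun c => (c i : ℤ)).sum = 0 := by simpa using h4.symm
  exact h6

theorem LR_zeroM (M : Machine A) : LR 0 (zeroM M) = LR 0 M := by
  ext w
  constructor
  · rintro ⟨l, q, hq, hr, hl⟩
    exact ⟨l, q, hq, (zeroM_run hr).1, hl⟩
  · rintro ⟨l, q, hq, hr, hl⟩
    exact ⟨l, q, hq, run_zeroM hr (no_change hr rfl rfl hl) rfl, hl⟩

theorem dpblind_subset (e : Bool) (A : Type) (c : ℕ) : DPBlind e A c ⊆ DCounter e A c := by
  rintro L ⟨M, -, h1, h2, h3, h4⟩
  exact ⟨M, h1, h2, h3, h4⟩

theorem zero_eq (e : Bool) (A : Type) : DPBlind e A 0 = DCounter e A 0 := by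
  refine Set.Subset.antisymm (dpblind_subset e A 0) ?_
  rintro L ⟨M, h1, h2, h3, h4⟩
  exact ⟨zeroM M, zeroM_blind M, zeroM_det h1, zeroM_quasi h2, fun he => zeroM_noEnd (h3 he),
    (LR_zeroM M).trans h4⟩

theorem mem_DCounter (e : Bool) {c : ℕ} (hc : 1 ≤ c) : L₁ ∈ DCounter e Bool c :=
  ⟨M₁, M₁_det, M₁_quasi, fun _ => M₁_noEnd, LR_M₁ hc⟩

theorem not_mem_DPBlind (e : Bool) (c : ℕ) : L₁ ∉ DPBlind e Bool c := by
  rintro ⟨M, h1, h2, h3, -, h4⟩
  exact lower h1 h2 h3 c h4

/-- The classes `L_{Rc}(QR-DPBLIND)` and `L_{Rc}(QR-DCOUNTER)` are equal if and only if `c = 0`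
(with and without moves after the end of the word); for every `c ≥ 1` the language
`L₁ = {a^n b^m | m > n}` is in the second one and in none of the classes
`L_{Rc'}(QR-DPBLIND)`. -/
theorem result :
    (∀ (e : Bool) (c : ℕ), (∀ (A : Type) [Finite A], DPBlind e A c = DCounter e A c) ↔ c = 0) ∧
    (∀ (e : Bool) (A : Type) (c : ℕ), DPBlind e A c ⊆ DCounter e A c) ∧
    (∀ (e : Bool) (c : ℕ), 1 ≤ c → L₁ ∈ DCounter e Bool c) ∧
    (∀ (e : Bool) (c : ℕ), L₁ ∉ DPBlind e Bool c) := by
  refine ⟨fun e c => ⟨fun h => ?_, ?_⟩, dpblind_subset, fun e c hc => mem_DCounter e hc,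
    not_mem_DPBlind⟩
  · by_contra hc
    have h1 := mem_DCounter e (Nat.one_le_iff_ne_zero.2 hc)
    rw [← h Bool] at h1
    exact not_mem_DPBlind e c h1
  · rintro rfl A _
    exact zero_eq e A

end Pool.Agent.Results.MP_24384b_lc.BlindCounterReversals
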